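import Mathlib

/-!
Definitions for the three-type mutation-selection system.
-/

namespace Pool.Agent.MP_51358b_an

open Set Filter Topology

/-- The right-hand side `M u + (diag r - (∑ c_j u_j ^ p) diag b) u`. -/
noncomputable def field (p : ℝ) (r b c : Fin 3 → ℝ) (M : Matrix (Fin 3) (Fin 3) ℝ)
    (u : Fin 3 → ℝ) : Fin 3 → ℝ :=
  fun i => (∑ j, M i j * u j) + (r i - (∑ j, c j * u j ^ p) * b i) * u i

/-- Admissible parameters: `p ≥ 1`, positive `r, b, c`, and `M` essentially nonnegative,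
irreducible, with zero row sums. -/
def Admissible (p : ℝ) (r b c : Fin 3 → ℝ) (M : Matrix (Fin 3) (Fin 3) ℝ) : Prop :=
  1 ≤ p ∧ (∀ i, 0 < r i) ∧ (∀ i, 0 < b i) ∧ (∀ i, 0 < c i) ∧
    (∀ i j, i ≠ j → 0 ≤ M i j) ∧
    (∀ S : Set (Fin 3), S.Nonempty → S ≠ univ → ∃ i ∈ S, ∃ j, j ∉ S ∧ M i j ≠ 0) ∧
    (∀ i, ∑ j, M i j = 0)

/-- `u` is a solution of `u' = f u` on `[0, ∞)` with values in the closed orthant. -/
def IsSol (f : (Fin 3 → ℝ) → Fin 3 → ℝ) (u : ℝ → Fin 3 → ℝ) : Prop :=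
  ∀ t, 0 ≤ t → (∀ i, 0 ≤ u t i) ∧ HasDerivWithinAt u (f (u t)) (Ici 0) t

/-- The set `A` is locally asymptotically stable: Lyapunov stable, and it attracts (in distance)
every solution starting in some neighbourhood of it. -/
def LAS (f : (Fin 3 → ℝ) → Fin 3 → ℝ) (A : Set (Fin 3 → ℝ)) : Prop :=
  (∀ ε : ℝ, 0 < ε → ∃ δ : ℝ, 0 < δ ∧ ∀ u, IsSol f u → Metric.infDist (u 0) A < δ →
      ∀ t, 0 ≤ t → Metric.infDist (u t) A < ε) ∧
    ∃ δ : ℝ, 0 < δ ∧ ∀ u, IsSol f u → Metric.infDist (u 0) A < δ →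
      Tendsto (fun t => Metric.infDist (u t) A) atTop (𝓝 0)

/-- The point `x` is globally asymptotically stable: locally asymptotically stable, and every
solution starting in the orthant away from `0` converges to it. -/
def GAS (f : (Fin 3 → ℝ) → Fin 3 → ℝ) (x : Fin 3 → ℝ) : Prop :=
  LAS f {x} ∧ ∀ u, IsSol f u → u 0 ≠ 0 → Tendsto u atTop (𝓝 x)

end Pool.Agent.MP_51358b_an
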